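import Mathlib
import Pool.Agent.Run7.h346.VB.Spc
import Pool.Agent.Run7.h418.Z.Defs

/-!
MP_1209e6_ag, Q1: Campana's conjecture for the Zariski closures of entire curves of bounded
derivative, in the projective varieties which have an immersive family of symmetric differentials of
arbitrary degrees.
-/

set_option autoImplicit false

namespace Pool.Agent.Results.MP_1209e6_ag.BoundedDerivativeSpecial

open MvPolynomial
open Pool.Agent.TH182.TC (PS)
open Pool.Agent.W602.GT Pool.Agent.N155 Run7.h418 Run7.h418.Z Run7.h346.VB

/-- Let `X = {F = 0}` be a complex projective variety with an immersive finite family of symmetric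
differentials `σ j` of positive degrees `m j`. Let `p` be a nonconstant entire curve in `X` with
bounded derivative, and let `V` be its Zariski closure, with function field `K`. Then `V` is special.
Moreover all rank one sheaves of `q`-forms on the models of `V`, for all `q`, have Kodaira dimension
at most `0`. -/
theorem result {n : ℕ} {ι κ : Type} [Finite κ] {F : ι → MvPolynomial (Fin (n + 1)) ℂ}
    (hF : ∀ i, IsForm (F i)) {m : κ → ℕ} (hm : ∀ j, 0 < m j)
    {σ : κ → (Fin (n + 1) → ℂ) → (Fin (n + 1) → ℂ) → ℂ} (hσ : ∀ j, SymForm F (m j) (σ j))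
    (him : Immersive F σ) {p : ℂ → PS n} (hp : HolMap p) (hpX : ∀ z, (p z).rep ∈ Cone F)
    (hb : BoundedDer p) (hne : ∃ z w, p z ≠ p w)
    (K : Type) [Field K] [Algebra ℂ K] (w : ℕ) (y : Fin (n + 1) → K) (hcl : IsClosure F p K w y) :
    Special ℂ K w (fun _ => False) ∧ AllKodairaLeZero K w := by
  have h := main hF hm hσ him hp hpX hb hne K w y hcl.1 hcl.2
  exact ⟨h.special, h⟩

end Pool.Agent.Results.MP_1209e6_ag.BoundedDerivativeSpecial
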